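import Pool.Agent.Lib.MP_359fef_co.Final

/-!
The number of factorizations of an irreducible element of `GL_n(q)` or `GU_n(q)` into `l`
reflections with prescribed determinants.
-/

open Pool.Agent.MP_359fef_co

universe u

theorem Pool.Agent.Results.MP_359fef_co.PrescribedDeterminants.result :
    (∀ (F : Type u) [Field F] [Fintype F] (n l : ℕ), 1 ≤ n → 1 ≤ l →
      ∀ c : Matrix (Fin n) (Fin n) F, InGL c → IsIrred c → (n = 1 → c ≠ 1) →
      ∀ a : Fin l → F, ∏ i, a i = c.det →
      (numFact InGL c a : ℚ) = conjValue (Fintype.card F) n l (Nat.card {i // a i = 1})) ∧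
    (∀ (K : Type u) [Field K] [Fintype K] (q : ℕ), Fintype.card K = q ^ 2 →
      ∀ (n l : ℕ), 1 ≤ n → 1 ≤ l →
      ∀ c : Matrix (Fin n) (Fin n) K, InGU q c → IsIrred c → (n = 1 → c ≠ 1) →
      ∀ a : Fin l → K, (∀ i, a i ^ (q + 1) = 1) → ∏ i, a i = c.det →
      (numFact (InGU q) c a : ℚ) = conjValue (-(q : ℚ)) n l (Nat.card {i // a i = 1})) :=
  main
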